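import Pool.Agent.H.MP_48d09b_al.Defs

set_option autoImplicit false

namespace Pool.Agent.H.MP_48d09b_al

open Filter Classical

lemma fi_of_inv {G T : Type} [Group G] [Finite T] (U : Subgroup G) (I : G → T)
    (h : ∀ a b, I a = I b → a * b⁻¹ ∈ U) : U.FiniteIndex := by
  haveI : Finite (G ⧸ U) := Finite.of_injective (fun c : G ⧸ U => I c.out⁻¹) fun c d e => by
    rw [← c.out_eq, ← d.out_eq]
    exact QuotientGroup.eq.2 (by simpa using h _ _ e)
  exact Subgroup.finiteIndex_of_finite_quotient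

lemma rf_of_sub {G : Type} [Group G] (h : ∀ g : G, g ≠ 1 → ∃ U : Subgroup G, U.FiniteIndex ∧ g ∉ U) :
    RF G := fun g hg => by
  obtain ⟨U, h1, h2⟩ := h g hg
  exact ⟨G ⧸ U.normalCore, inferInstance, inferInstance, QuotientGroup.mk' _,
    fun e => h2 (U.normalCore_le ((QuotientGroup.eq_one_iff _).1 e))⟩

abbrev Pr := Nat.Primes

instance : Infinite Pr := Nat.infinite_setOf_prime.to_subtype

lemma ev_gt (M : ℕ) : ∀ᶠ p : Pr in cofinite, M < p.1 := by
  refine (Set.finite_le_nat M).preimage Subtype.val_injective.injOn |>.subset fun p hp => ?_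
  exact not_lt.1 (show ¬ M < p.1 from hp)

instance (p : Pr) : NeZero p.1 := ⟨p.2.ne_zero⟩

lemma ev_ne (q : Pr) : ∀ᶠ p : Pr in cofinite, p ≠ q := eventually_cofinite_ne q

lemma zero_of_ev {k : ℤ} (h : ∀ᶠ p : Pr in cofinite, (p.1 : ℤ) ∣ k) : k = 0 := by
  obtain ⟨p, h1, h2⟩ := (h.and (ev_gt k.natAbs)).exists
  exact Int.eq_zero_of_dvd_of_natAbs_lt_natAbs h1 (by simpa using h2)

def X : Type := Σ p : Pr, ZMod p.1

def pt (p : Pr) (i : ℤ) : X := ⟨p, i⟩

def sh (k : ℤ) (x : X) : X := ⟨x.1, x.2 + k⟩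

@[simp] lemma pt_fst (p : Pr) (i : ℤ) : (pt p i).1 = p := rfl
@[simp] lemma sh_fst (k : ℤ) (x : X) : (sh k x).1 = x.1 := rfl
@[simp] lemma sh_pt (k : ℤ) (p : Pr) (i : ℤ) : sh k (pt p i) = pt p (i + k) := by
  rw [pt, pt, Int.cast_add]; rfl
@[simp] lemma sh_sh (k l : ℤ) (x : X) : sh k (sh l x) = sh (l + k) x := by
  rw [sh, sh, sh, Int.cast_add, ← add_assoc]
@[simp] lemma sh_zero (x : X) : sh 0 x = x := by simp [sh]

lemma exists_pt (x : X) : ∃ p i, x = pt p i := by
  obtain ⟨p, x⟩ := x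
  obtain ⟨i, rfl⟩ := ZMod.intCast_surjective x
  exact ⟨p, i, rfl⟩

lemma pt_eq {p q : Pr} {i j : ℤ} : pt p i = pt q j ↔ p = q ∧ (p.1 : ℤ) ∣ j - i := by
  constructor
  · intro e
    obtain rfl : p = q := congrArg Sigma.fst e
    exact ⟨rfl, (ZMod.intCast_eq_intCast_iff_dvd_sub _ _ _).1 (eq_of_heq (Sigma.mk.inj e).2)⟩
  · rintro ⟨rfl, h⟩
    rw [pt, pt, (ZMod.intCast_eq_intCast_iff_dvd_sub _ _ _).2 h]

lemma sh_inj {k : ℤ} {x y : X} : sh k x = y ↔ x = sh (-k) y := by
  constructor <;> rintro rfl <;> simp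

variable {A : Type} [Group A]

def Good (f : X → A) : Prop :=
  (∃ R : ℕ, ∀ᶠ p in cofinite, ∀ j, f (pt p j) ≠ 1 → ∃ i : ℤ, |i| ≤ R ∧ pt p j = pt p i) ∧
    ∀ i : ℤ, ∃ a, ∀ᶠ p in cofinite, f (pt p i) = a

lemma Good.sh {f : X → A} (h : Good f) (k : ℤ) : Good fun x => f (sh k x) := by
  obtain ⟨⟨R, h1⟩, h2⟩ := h
  refine ⟨⟨R + k.natAbs, h1.mono fun p hp j hj => ?_⟩, fun i => by simpa using h2 (i + k)⟩
  obtain ⟨i, h3, h4⟩ := hp (j + k) (by simpa using hj)
  refine ⟨i - k, by rw [abs_le] at *; omega, ?_⟩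
  simpa [sub_eq_add_neg] using congrArg (Pool.Agent.H.MP_48d09b_al.sh (-k)) h4

lemma Good.mul {f g : X → A} (hf : Good f) (hg : Good g) : Good fun x => f x * g x := by
  obtain ⟨⟨R, h1⟩, h2⟩ := hf
  obtain ⟨⟨S, h3⟩, h4⟩ := hg
  refine ⟨⟨R + S, (h1.and h3).mono fun p hp j hj => ?_⟩, fun i => ?_⟩
  · by_cases h : f (pt p j) = 1
    · obtain ⟨i, h5, h6⟩ := hp.2 j fun e => hj (by simp [h, e])
      exact ⟨i, by push_cast; omega, h6⟩
    · obtain ⟨i, h5, h6⟩ := hp.1 j h
      exact ⟨i, by push_cast; omega, h6⟩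
  · obtain ⟨a, ha⟩ := h2 i
    obtain ⟨b, hb⟩ := h4 i
    exact ⟨a * b, (ha.and hb).mono fun p hp => by simp [hp.1, hp.2]⟩

lemma Good.inv {f : X → A} (hf : Good f) : Good fun x => (f x)⁻¹ := by
  obtain ⟨⟨R, h1⟩, h2⟩ := hf
  refine ⟨⟨R, h1.mono fun p hp j hj => hp j (by simpa using hj)⟩, fun i => ?_⟩
  obtain ⟨a, ha⟩ := h2 i
  exact ⟨a⁻¹, ha.mono fun p hp => by simp [hp]⟩

lemma good_of_ev {f g : X → A} (hg : Good g) (h : ∀ᶠ p in cofinite, ∀ j, f (pt p j) = g (pt p j)) :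
    Good f := by
  obtain ⟨⟨R, h1⟩, h2⟩ := hg
  refine ⟨⟨R, (h1.and h).mono fun p hp j hj => hp.1 j (hp.2 j ▸ hj)⟩, fun i => ?_⟩
  obtain ⟨a, ha⟩ := h2 i
  exact ⟨a, (ha.and h).mono fun p hp => (hp.2 i).trans hp.1⟩

lemma good_one : Good fun _ : X => (1 : A) := ⟨⟨0, by simp⟩, fun _ => ⟨1, by simp⟩⟩

@[ext] structure G (A : Type) [Group A] where
  f : X → A
  k : ℤ
  good : Good f

instance : Group (G A) where
  mul g h := ⟨fun x => g.f x * h.f (sh (-g.k) x), g.k + h.k, g.good.mul (h.good.sh _)⟩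
  one := ⟨fun _ => 1, 0, good_one⟩
  inv g := ⟨fun x => (g.f (sh g.k x))⁻¹, -g.k, (g.good.sh _).inv⟩
  mul_assoc a b c := G.ext (funext fun x => by
    change _ * _ * c.f (sh (-(a.k + b.k)) x) = _ * (_ * c.f (sh _ (sh _ x)))
    rw [mul_assoc, sh_sh, neg_add]) (add_assoc _ _ _)
  one_mul a := G.ext (funext fun x => by
    change 1 * a.f (sh (-0) x) = _
    simp) (zero_add _)
  mul_one a := G.ext (funext fun x => mul_one _) (add_zero _)
  inv_mul_cancel a := G.ext (funext fun x => by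
    change (a.f (sh a.k x))⁻¹ * a.f (sh (- -a.k) x) = 1
    simp) (neg_add_cancel _)

@[simp] lemma mul_f (g h : G A) (x : X) : (g * h).f x = g.f x * h.f (sh (-g.k) x) := rfl
@[simp] lemma mul_k (g h : G A) : (g * h).k = g.k + h.k := rfl
@[simp] lemma inv_f (g : G A) (x : X) : g⁻¹.f x = (g.f (sh g.k x))⁻¹ := rfl
@[simp] lemma inv_k (g : G A) : g⁻¹.k = -g.k := rfl
@[simp] lemma one_f (x : X) : (1 : G A).f x = 1 := rfl
@[simp] lemma one_k : (1 : G A).k = 0 := rfl

def T (n : ℤ) : G A := ⟨fun _ => 1, n, good_one⟩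

@[simp] lemma T_f (n : ℤ) (x : X) : (T n : G A).f x = 1 := rfl
@[simp] lemma T_k (n : ℤ) : (T n : G A).k = n := rfl

lemma T_pow (n : ℤ) : (T 1 : G A) ^ n = T n := by
  induction n using Int.induction_on with
  | zero => rfl
  | succ i ih => rw [zpow_add_one, ih]; ext <;> simp
  | pred i ih => rw [zpow_sub_one, ih]; ext <;> simp [sub_eq_add_neg]

/-- one lamp in each component -/
noncomputable def dl (i : ℤ) (a : A) : G A := ⟨fun x => if x = pt x.1 i then a else 1, 0,
  ⟨⟨i.natAbs, Eventually.of_forall fun p j hj => ⟨i, by simp, by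
    by_contra h; exact hj (if_neg h)⟩⟩, fun j => by
    by_cases h : j = i
    · exact ⟨a, Eventually.of_forall fun p => by simp [h]⟩
    · refine ⟨1, (ev_gt (i - j).natAbs).mono fun p hp => if_neg fun e => h ?_⟩
      have := Int.eq_zero_of_dvd_of_natAbs_lt_natAbs (pt_eq.1 e).2 (by simpa using hp)
      omega⟩⟩

@[simp] lemma dl_f (i : ℤ) (a : A) (x : X) : (dl i a).f x = if x = pt x.1 i then a else 1 := rfl
@[simp] lemma dl_k (i : ℤ) (a : A) : (dl i a).k = 0 := rfl

noncomputable def ee (y : X) (a : A) : G A := ⟨fun x => if x = y then a else 1, 0,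
  good_of_ev good_one ((ev_ne y.1).mono fun p hp j => if_neg fun e => hp (by rw [← e]; rfl))⟩

@[simp] lemma ee_f (y : X) (a : A) (x : X) : (ee y a).f x = if x = y then a else 1 := rfl
@[simp] lemma ee_k (y : X) (a : A) : (ee y a).k = 0 := rfl

lemma ee_mul (y : X) (a b : A) : ee y (a * b) = ee y a * ee y b := by
  ext x
  · by_cases h : x = y <;> simp [h]
  · simp

lemma dl_mul (i : ℤ) (a b : A) : dl i (a * b) = dl i a * dl i b := by
  ext x
  · simp only [dl_f, mul_f, dl_k, neg_zero, sh_zero]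
    split_ifs <;> simp
  · simp

noncomputable def eeH (y : X) : A →* G A := MonoidHom.mk' (ee y) (ee_mul y)

noncomputable def dlH (i : ℤ) : A →* G A := MonoidHom.mk' (dl i) (dl_mul i)

lemma conj_ee (g : G A) (y : X) (a : A) :
    g * ee y a * g⁻¹ = ee (sh g.k y) (g.f (sh g.k y) * a * (g.f (sh g.k y))⁻¹) := by
  ext x
  · by_cases h : x = sh g.k y
    · simp [h]
    · have : sh (-g.k) x ≠ y := fun e => h (by simp [← e])
      simp [h, this]
  · simp

lemma conj_dl (j i : ℤ) (a : A) : T j * dl i a * (T j)⁻¹ = dl (i + j) a := by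
  ext x
  · obtain ⟨p, l, rfl⟩ := exists_pt x
    simp [pt_eq, show i - (l + -j) = i + j - l by ring]
  · simp

variable [IsSimpleGroup A] [hA : Fact (∃ a b : A, a * b ≠ b * a)]

lemma cen {a : A} (h : ∀ b, b * a = a * b) : a = 1 := by
  rcases (inferInstance : (Subgroup.center A).Normal).eq_bot_or_eq_top with e | e
  · exact Subgroup.mem_bot.1 (e ▸ Subgroup.mem_center_iff.2 h)
  · obtain ⟨a, b, hab⟩ := hA.out
    exact (hab (Subgroup.mem_center_iff.1 (e ▸ Subgroup.mem_top b) a)).elim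

lemma perf (S : Subgroup A) (h : ∀ a b, a * b * a⁻¹ * b⁻¹ ∈ S) (c : A) : c ∈ S := by
  have : commutator A ≤ S := Subgroup.commutator_le.2 fun a _ b _ => h a b
  rcases (inferInstance : (commutator A).Normal).eq_bot_or_eq_top with e | e
  · obtain ⟨a, b, hab⟩ := hA.out
    have := Subgroup.commutator_mem_commutator (Subgroup.mem_top a) (Subgroup.mem_top b)
    rw [← commutator_def, e, Subgroup.mem_bot, commutatorElement_eq_one_iff_mul_comm] at this
    exact (hab this).elim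
  · exact this (e ▸ Subgroup.mem_top c)

lemma gen (S : Subgroup (G A)) (h1 : T 1 ∈ S) (h2 : ∀ a, dl 0 a ∈ S) (g : G A) : g ∈ S := by
  have hT : ∀ n, T n ∈ S := fun n => T_pow (A := A) n ▸ S.zpow_mem h1 n
  have hd : ∀ i a, dl i a ∈ S := fun i a => by
    simpa [conj_dl] using S.mul_mem (S.mul_mem (hT i) (h2 a)) (S.inv_mem (hT i))
  have he : ∀ y a, ee y a ∈ S := fun y a => by
    obtain ⟨p, i, rfl⟩ := exists_pt y
    refine perf (S.comap (eeH (pt p i))) (fun a b => ?_) a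
    have := S.mul_mem (S.mul_mem (S.mul_mem (hd i a) (hd (i + p.1) b)) (S.inv_mem (hd i a)))
      (S.inv_mem (hd (i + p.1) b))
    refine Subgroup.mem_comap.2 (Eq.subst (motive := (· ∈ S)) ?_ this)
    change _ = ee _ _
    ext x
    · obtain ⟨q, l, rfl⟩ := exists_pt x
      simp only [mul_f, inv_f, mul_k, inv_k, dl_k, dl_f, ee_f, add_zero, neg_zero, sh_zero, pt_fst,
        pt_eq, true_and]
      by_cases h3 : (q.1 : ℤ) ∣ i - l <;> by_cases h4 : (q.1 : ℤ) ∣ i + p.1 - l
      · have h5 : (q.1 : ℤ) ∣ p.1 := by simpa using dvd_sub h4 h3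
        have : q = p := Subtype.ext ((Nat.prime_dvd_prime_iff_eq q.2 p.2).1 (by exact_mod_cast h5))
        subst this
        simp [h3, h4]
      · have : q ≠ p := by
          rintro rfl
          exact h4 (by simpa [add_sub_right_comm] using h3)
        simp [h3, h4, this]
      all_goals simp [h3, h4]
    · simp
  have fin : ∀ (s : Finset X) (g : G A), g.k = 0 → (∀ x, x ∉ s → g.f x = 1) → g ∈ S := by
    intro s
    induction s using Finset.induction_on with
    | empty => intro g h3 h4; rw [show g = 1 from G.ext (funext fun x => h4 x (by simp)) h3]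
               exact S.one_mem
    | insert y s _ ih =>
      intro g h3 h4
      have := ih ((ee y (g.f y))⁻¹ * g) (by simp [h3]) fun x hx => by
        by_cases h : x = y
        · simp [h]
        · simp [h, h4 x (by simp [h, hx])]
      simpa using S.mul_mem (he y (g.f y)) this
  have main : ∀ (s : Finset ℤ) (g : G A), g.k = 0 →
      (∀ᶠ p in cofinite, ∀ j, g.f (pt p j) ≠ 1 → ∃ i ∈ s, pt p j = pt p i) → g ∈ S := by
    intro s
    induction s using Finset.induction_on with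
    | empty =>
      intro g h3 h4
      have : {x : X | g.f x ≠ 1}.Finite := by
        refine (Set.Finite.biUnion h4 fun p _ => (Set.finite_range (Sigma.mk p))).subset
          fun x hx => ?_
        obtain ⟨p, j, rfl⟩ := exists_pt x
        exact Set.mem_biUnion (x := p) (fun h => by simpa using h j hx) ⟨_, rfl⟩
      exact fin this.toFinset g h3 fun x hx => by simpa using hx
    | insert y s _ ih =>
      intro g h3 h4
      obtain ⟨a, ha⟩ := g.good.2 y
      have := ih ((dl y a)⁻¹ * g) (by simp [h3]) ((ha.and h4).mono fun p hp j hj => by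
        by_cases h : pt p j = pt p y
        · simp [h, hp.1] at hj
        · obtain ⟨i, h5, h6⟩ := hp.2 j (by simpa [h] using hj)
          exact ⟨i, (Finset.mem_insert.1 h5).resolve_left fun e => h (e ▸ h6), h6⟩)
      simpa using S.mul_mem (hd y a) this
  obtain ⟨R, hR⟩ := g.good.1
  have := main (Finset.Icc (-R) R) (g * (T g.k)⁻¹) (by simp) (hR.mono fun p hp j hj => by
    obtain ⟨i, h3, h4⟩ := hp j (by simpa using hj)
    exact ⟨i, Finset.mem_Icc.2 (abs_le.1 h3), h4⟩)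
  simpa using S.mul_mem this (hT g.k)

end Pool.Agent.H.MP_48d09b_al
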