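import Pool.Agent.H.MP_48d09b_al.A

set_option autoImplicit false

namespace Pool.Agent.H.MP_48d09b_al

open Filter Classical

variable {A : Type} [Group A]

theorem rf_G [Finite A] : RF (G A) := by
  refine rf_of_sub fun g hg => ?_
  have key : ∀ p : Pr, ∃ U : Subgroup (G A), U.FiniteIndex ∧
      ∀ g, g ∈ U ↔ (p.1 : ℤ) ∣ g.k ∧ ∀ j, g.f (pt p j) = 1 := fun p => by
    let U : Subgroup (G A) :=
      { carrier := {g | (p.1 : ℤ) ∣ g.k ∧ ∀ j, g.f (pt p j) = 1}
        one_mem' := ⟨by simp, fun _ => rfl⟩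
        mul_mem' := fun ha hb => ⟨dvd_add ha.1 hb.1, fun j => by simp [ha.2, hb.2]⟩
        inv_mem' := fun ha => ⟨by simpa using ha.1, fun j => by simp [ha.2]⟩ }
    refine ⟨U, fi_of_inv U (fun g => ((g.k : ZMod p.1), fun x : ZMod p.1 => g.f ⟨p, x⟩))
      fun a b e => ?_, fun _ => Iff.rfl⟩
    obtain ⟨e1, e2⟩ := Prod.mk.inj e
    have e3 := (ZMod.intCast_eq_intCast_iff_dvd_sub _ _ _).1 e1.symm
    refine ⟨by simpa [sub_eq_add_neg] using e3, fun j => ?_⟩
    have e4 : pt p (j + -a.k + b.k) = pt p j := pt_eq.2 ⟨rfl, by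
      rwa [show j - (j + -a.k + b.k) = a.k - b.k by ring]⟩
    simp only [mul_f, inv_f, sh_pt, e4, mul_inv_eq_one]
    exact congrFun e2 j
  by_contra hc
  push Not at hc
  have h1 := fun p => (key p).elim fun U h => (h.2 g).1 (hc U h.1)
  refine hg (G.ext (funext fun x => ?_) (zero_of_ev (Eventually.of_forall fun p => (h1 p).1)))
  obtain ⟨p, i, rfl⟩ := exists_pt x
  exact (h1 p).2 i

def rotF (c : Pr → ℤ) (hc : ∀ᶠ p in cofinite, c p = 0) (g : G A) : G A :=
  ⟨fun x => g.f (sh (-c x.1) x), g.k, good_of_ev g.good (hc.mono fun p hp j => by simp [hp])⟩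

def rot (c : Pr → ℤ) (hc : ∀ᶠ p in cofinite, c p = 0) : MulAut (G A) where
  toFun := rotF c hc
  invFun := rotF (-c) (hc.mono fun p hp => by simp [hp])
  left_inv g := by ext <;> simp [rotF]
  right_inv g := by ext <;> simp [rotF]
  map_mul' g h := by ext <;> simp [rotF, add_comm]

@[simp] lemma rot_f (c : Pr → ℤ) (hc : ∀ᶠ p in cofinite, c p = 0) (g : G A) (x : X) :
    (rot c hc g).f x = g.f (sh (-c x.1) x) := rfl
@[simp] lemma rot_k (c : Pr → ℤ) (hc : ∀ᶠ p in cofinite, c p = 0) (g : G A) :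
    (rot c hc g).k = g.k := rfl

lemma rot_inner [Nontrivial A] {c : Pr → ℤ} {hc : ∀ᶠ p in cofinite, c p = 0}
    (h : rot c hc ∈ Inn (G A)) (p : Pr) : (p.1 : ℤ) ∣ c p := by
  obtain ⟨g, hg⟩ := h
  obtain ⟨a, ha⟩ := exists_ne (1 : A)
  have key : ∀ p : Pr, (p.1 : ℤ) ∣ g.k - c p := fun p => by
    by_contra h1
    have := congrArg (fun φ : MulAut (G A) => (φ (dl 0 a)).f (pt p (c p))) hg
    have h2 : pt p (c p + -g.k) ≠ pt p 0 := fun e => h1 (by
      simpa [sub_eq_add_neg] using (pt_eq.1 e).2)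
    simp [h2, ha.symm] at this
  have := zero_of_ev (k := g.k) (hc.mono fun p hp => by simpa [hp] using key p)
  simpa [this] using key p

def cq (q : Pr) (p : Pr) : ℤ := if p = q then 1 else 0

lemma cq_ev (q : Pr) : ∀ᶠ p in cofinite, cq q p = 0 := (ev_ne q).mono fun _ hp => if_neg hp

lemma not_dvd_one (p : Pr) : ¬ (p.1 : ℤ) ∣ 1 := fun h =>
  p.2.one_lt.ne' (by exact_mod_cast Int.eq_one_of_dvd_one (by positivity) h)

theorem out_inf [Nontrivial A] : Infinite (MulAut (G A) ⧸ Inn (G A)) := by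
  refine Infinite.of_injective (fun q : Pr => QuotientGroup.mk (rot (cq q) (cq_ev q)))
    fun q r e => ?_
  have h1 := QuotientGroup.eq.1 e
  have h2 : (rot (cq q) (cq_ev q))⁻¹ * rot (cq r) (cq_ev r) = (rot (cq r - cq q)
      (((cq_ev r).and (cq_ev q)).mono fun p hp => by simp [hp.1, hp.2]) : MulAut (G A)) := by
    rw [inv_mul_eq_iff_eq_mul]
    ext <;> simp [sub_eq_add_neg]
  by_contra hne
  have := rot_inner (h2 ▸ h1) r
  exact not_dvd_one r (by simpa [cq, Ne.symm hne] using this)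

variable [IsSimpleGroup A] [hA : Fact (∃ a b : A, a * b ≠ b * a)]

theorem not_IAS : ¬ IAS (G A) := by
  intro h
  let two : Pr := ⟨2, Nat.prime_two⟩
  obtain ⟨K, hK, hF, h1⟩ := h (rot (cq two) (cq_ev two)) fun e =>
    not_dvd_one two (by simpa [cq] using rot_inner e two)
  apply h1
  obtain ⟨n, n0, n2, hn⟩ : ∃ n : ℕ, n ≠ 0 ∧ 2 ∣ n ∧ T n ∈ K := ⟨K.index * 2,
    mul_ne_zero hF.index_ne_zero two_ne_zero, dvd_mul_left _ _, by
      rw [← T_pow, zpow_natCast, pow_mul]
      exact K.pow_mem (K.pow_index_mem _) 2⟩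
  obtain ⟨e, k, hk, rfl⟩ := Nat.exists_eq_two_pow_mul_odd n0
  let dr : A →* G A := MonoidHom.mk' (fun a => ⟨fun x => if x = pt x.1 0 ∧ x.1.1 ∣ 2 ^ e * k then a
    else 1, 0, good_of_ev good_one ((ev_gt (2 ^ e * k)).mono fun p hp j => if_neg fun h =>
      (Nat.le_of_dvd (Nat.pos_of_ne_zero n0) h.2).not_gt hp)⟩) fun a b => by
        ext x
        · simp only [mul_f, neg_zero, sh_zero]
          split_ifs <;> simp
        · simp
  have dr_f : ∀ a x, (dr a).f x = if x = pt x.1 0 ∧ x.1.1 ∣ 2 ^ e * k then a else 1 :=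
    fun _ _ => rfl
  have dr_k : ∀ a, (dr a).k = 0 := fun _ => rfl
  let m := QuotientGroup.mk' K
  have mT : m (T ((2 ^ e * k : ℕ) : ℤ)) = 1 := (QuotientGroup.eq_one_iff _).2 hn
  have h2 : ∀ c, m (dl 0 c) = m (dr c) := perf ((m.comp (dlH 0)).eqLocus (m.comp dr)) fun a b => by
    have h3 : dr (a * b * a⁻¹ * b⁻¹) = dl 0 a * dl ((2 ^ e * k : ℕ) : ℤ) b * (dl 0 a)⁻¹ *
        (dl ((2 ^ e * k : ℕ) : ℤ) b)⁻¹ := by
      ext x
      · obtain ⟨q, l, rfl⟩ := exists_pt x
        simp only [mul_f, inv_f, mul_k, inv_k, dl_k, dl_f, dr_f, add_zero, neg_zero, sh_zero, pt_fst,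
          pt_eq, true_and, ← Int.natCast_dvd_natCast (m := q.1)]
        generalize ((2 ^ e * k : ℕ) : ℤ) = N
        by_cases h3 : (q.1 : ℤ) ∣ 0 - l <;> by_cases h4 : (q.1 : ℤ) ∣ N - l
        · have h5 : (q.1 : ℤ) ∣ N := by simpa using dvd_sub h4 h3
          simp only [h3, h4, h5, and_self, if_true]
        · have h5 : ¬ (q.1 : ℤ) ∣ N := fun h => h4 (by simpa [sub_eq_add_neg] using dvd_add h h3)
          simp only [h3, h4, h5]
          simp
        all_goals simp only [h3, h4]; simp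
      · simp [dr_k]
    have h4 : m (dl ((2 ^ e * k : ℕ) : ℤ) b) = m (dl 0 b) := by
      have := conj_dl ((2 ^ e * k : ℕ) : ℤ) 0 b
      rw [zero_add] at this
      rw [← this, map_mul, map_mul, map_inv, mT]
      simp
    change m (dlH 0 _) = m (dr _)
    rw [h3]
    simp only [map_mul, map_inv, h4]
    rfl
  refine ⟨T k, gen ((m.comp (rot (cq two) (cq_ev two)).toMonoidHom).eqLocus
    (m.comp (MulAut.conj (T k)).toMonoidHom)) ?_ fun a => ?_⟩
  · refine congrArg m (G.ext ?_ ?_)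
    · ext x; simp
    · simp
  · change m (rot _ _ (dl 0 a)) = m (T k * dl 0 a * (T k)⁻¹)
    have h3 : m (rot (cq two) (cq_ev two) (dl 0 a)) = m (rot (cq two) (cq_ev two) (dr a)) := by
      refine QuotientGroup.eq.2 ?_
      rw [← map_inv, ← map_mul]
      exact (hK.fixed (rot (cq two) (cq_ev two))).ge (QuotientGroup.eq.1 (h2 a))
    rw [h3, map_mul, map_mul, h2, ← map_mul, ← map_mul]
    refine congrArg m (G.ext ?_ (by simp))
    ext x
    obtain ⟨q, l, rfl⟩ := exists_pt x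
    simp only [rot_f, mul_f, inv_f, T_f, T_k, dr_f, sh_pt, pt_fst, pt_eq, true_and, inv_one, one_mul,
      mul_one]
    refine if_congr (and_congr_left fun h => ?_) rfl rfl
    have : (q.1 : ℤ) ∣ k - cq two q := by
      by_cases hq : q = two
      · obtain ⟨r, rfl⟩ := hk
        simp [hq, cq, two]
      · have := (q.2.dvd_mul.1 h).resolve_left fun h => hq (Subtype.ext
          ((Nat.prime_dvd_prime_iff_eq q.2 Nat.prime_two).1 (q.2.dvd_of_dvd_pow h)))
        simpa [cq, hq, Int.natCast_dvd_natCast] using this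
    rw [show 0 - (l + -(k : ℤ)) = 0 - (l + -cq two q) + (k - cq two q) by ring]
    exact (dvd_add_left this).symm

end Pool.Agent.H.MP_48d09b_al
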