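import Pool.Agent.H.MP_48d09b_al.B

set_option autoImplicit false

namespace Pool.Agent.H.MP_48d09b_al

open Filter Classical

variable {A : Type} [Group A]

lemma zpow_k (g : G A) (n : ℤ) : (g ^ n).k = n * g.k := by
  induction n using Int.induction_on with
  | zero => simp
  | succ i ih => rw [zpow_add_one, mul_k, ih]; ring
  | pred i ih => rw [zpow_sub_one, mul_k, ih, inv_k]; ring

lemma pow_f (g : G A) (h : g.k = 0) (n : ℕ) (x : X) : (g ^ n).f x = g.f x ^ n := by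
  induction n with
  | zero => simp
  | succ n ih => simp [pow_succ', h, ih]

lemma k_zero [Finite A] (φ : MulAut (G A)) {g : G A} (h : g.k = 0) : (φ g).k = 0 := by
  have h1 : g ^ Nat.card A = 1 := G.ext (funext fun x => by simp [pow_f g h])
    (by rw [← zpow_natCast, zpow_k, h]; simp)
  have h2 := zpow_k (φ g) (Nat.card A)
  rw [zpow_natCast, ← map_pow, h1, map_one, one_k] at h2
  exact (mul_eq_zero.1 h2.symm).resolve_left (by exact_mod_cast Nat.card_pos.ne')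

lemma k_aut [Finite A] (φ : MulAut (G A)) (g : G A) : (φ g).k = g.k * (φ (T 1)).k := by
  have := k_zero φ (g := g * (T 1 ^ g.k)⁻¹) (by simp [T_pow])
  rw [map_mul, map_inv, map_zpow, mul_k, inv_k, zpow_k] at this
  linarith

def R (φ : MulAut (G A)) (x y : X) : Prop :=
  (∀ b, ∃ a, φ (ee x a) = ee y b) ∧ ∀ a, ∃ b, φ (ee x a) = ee y b

lemma R.symm {φ : MulAut (G A)} {x y : X} (h : R φ x y) : R φ⁻¹ y x :=
  ⟨fun a => (h.2 a).imp fun b e => by rw [← e]; simp,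
    fun b => (h.1 b).imp fun a e => by rw [← e]; simp⟩

lemma ee_inj {x y : X} {a b : A} (hb : b ≠ 1) (h : ee x a = ee y b) : x = y := by
  have := congrArg (fun g : G A => g.f y) h
  by_contra e
  simp [Ne.symm e, hb.symm] at this

lemma R.uniq [Nontrivial A] {φ : MulAut (G A)} {x y z : X} (h : R φ x y) (h' : R φ x z) : y = z := by
  obtain ⟨b, hb⟩ := exists_ne (1 : A)
  obtain ⟨a, ha⟩ := h'.1 b
  obtain ⟨c, hc⟩ := h.2 a
  exact ee_inj hb (hc.symm.trans ha)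

lemma R.conj {φ : MulAut (G A)} {x y : X} (h : R φ x y) (g : G A) :
    R (MulAut.conj g * φ) x (sh g.k y) := by
  refine ⟨fun b => (h.1 ((g.f (sh g.k y))⁻¹ * b * g.f (sh g.k y))).imp fun a e => ?_,
    fun a => (h.2 a).elim fun b e => ⟨_, by rw [MulAut.mul_apply, MulAut.conj_apply, e, conj_ee]⟩⟩
  rw [MulAut.mul_apply, MulAut.conj_apply, e, conj_ee]
  simp [mul_assoc]

lemma R.shift {φ : MulAut (G A)} {x y : X} (h : R φ x y) (g : G A) :
    R φ (sh g.k x) (sh (φ g).k y) := by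
  have h1 := ((h.conj (φ g)).symm.conj g).symm
  rwa [show (MulAut.conj g * (MulAut.conj (φ g) * φ)⁻¹)⁻¹ = φ by ext1 z; simp [mul_assoc]] at h1

variable [IsSimpleGroup A] [hA : Fact (∃ a b : A, a * b ≠ b * a)] [Finite A]

lemma R.van {φ : MulAut (G A)} {x y : X} (h : R φ x y) {g : G A} (h1 : g.k = 0) (h2 : g.f x = 1) :
    (φ g).f y = 1 := cen fun b => by
  obtain ⟨a, ha⟩ := h.1 b
  have h3 : ee x a * g = g * ee x a := by
    ext z
    · by_cases e : z = x <;> simp [e, h1, h2]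
    · simp
  have := congrArg (fun g => (φ g).f y) h3
  simpa [ha, k_zero φ h1] using this

lemma one_dir (φ : MulAut (G A)) (x : X) : ∃ y, ∀ b, ∃ a, φ (ee x a) = ee y b := by
  obtain ⟨a0, h0⟩ := exists_ne (1 : A)
  have k0 := k_zero φ (ee_k x a0)
  obtain ⟨y, hy⟩ : ∃ y, (φ (ee x a0)).f y ≠ 1 := by
    by_contra hc
    push Not at hc
    have : ee x a0 = 1 := φ.injective (by rw [map_one]; exact G.ext (funext hc) k0)
    exact h0 (by simpa using congrArg (fun g : G A => g.f x) this)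
  let S : Subgroup A := ((eeH x).range.map φ.toMonoidHom).comap (eeH y)
  have hS : ∀ b, b ∈ S ↔ ∃ a, φ (ee x a) = ee y b := fun b =>
    ⟨fun ⟨_, ⟨a, rfl⟩, e⟩ => ⟨a, e⟩, fun ⟨a, e⟩ => ⟨_, ⟨a, rfl⟩, e⟩⟩
  have cj : ∀ c a, ∃ a', ee y c * φ (ee x a) * (ee y c)⁻¹ = φ (ee x a') := fun c a => by
    have := conj_ee (φ⁻¹ (ee y c)) x a
    rw [k_zero φ⁻¹ (ee_k y c), sh_zero] at this
    exact ⟨_, by rw [← this]; simp⟩
  have hN : S.Normal := ⟨fun b hb c => by
    obtain ⟨a, ha⟩ := (hS b).1 hb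
    obtain ⟨a', h⟩ := cj c a
    exact (hS _).2 ⟨a', by rw [← h, ha, conj_ee]; simp⟩⟩
  refine ⟨y, fun b => (hS b).1 ?_⟩
  rcases hN.eq_bot_or_eq_top with e | e
  · refine (hy (cen fun c => ?_)).elim
    obtain ⟨a', h⟩ := cj c a0
    have h1 := conj_ee (φ (ee x a0)) y c⁻¹
    rw [k0, sh_zero] at h1
    have : c * ((φ (ee x a0)).f y * c⁻¹ * ((φ (ee x a0)).f y)⁻¹) ∈ S := (hS _).2 ⟨a' * a0⁻¹, by
      rw [ee_mul, ee_mul y c, ← h1, map_mul, ← h, show ee x a0⁻¹ = (ee x a0)⁻¹ from (eeH x).map_inv _,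
        show ee y c⁻¹ = (ee y c)⁻¹ from (eeH y).map_inv _, map_inv]
      simp [mul_assoc]⟩
    rw [e, Subgroup.mem_bot, ← mul_assoc, ← mul_assoc, mul_inv_eq_one, mul_inv_eq_iff_eq_mul] at this
    exact this
  · exact e ▸ Subgroup.mem_top b

lemma exists_R (φ : MulAut (G A)) (x : X) : ∃ y, R φ x y := by
  obtain ⟨y, h1⟩ := one_dir φ x
  obtain ⟨z, h2⟩ := one_dir φ⁻¹ y
  obtain ⟨c, hc⟩ := exists_ne (1 : A)
  obtain rfl : x = z := by
    obtain ⟨b, hb⟩ := h2 c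
    obtain ⟨a, ha⟩ := h1 b
    exact ee_inj hc (a := a) (by rw [← hb, ← ha]; simp)
  exact ⟨y, h1, fun a => (h2 a).imp fun b e => by rw [← e]; simp⟩

variable {φ : MulAut (G A)}

lemma R.sh (h1 : (φ (T 1)).k = 1) {x y : X} (h : R φ x y) (n : ℤ) : R φ (sh n x) (sh n y) := by
  simpa [k_aut φ (T n), h1] using h.shift (T n)

lemma exists_c (h1 : (φ (T 1)).k = 1) (p : Pr) : ∃ c, ∀ i, R φ (pt p i) (pt p (c + i)) := by
  obtain ⟨y, h⟩ := exists_R φ (pt p 0)
  obtain ⟨q, c, rfl⟩ := exists_pt y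
  have h2 := h.sh h1 p.1
  rw [sh_pt, sh_pt, show pt p (0 + p.1) = pt p 0 from pt_eq.2 ⟨rfl, by simp⟩] at h2
  have h3 : (q.1 : ℤ) ∣ p.1 := by simpa using (pt_eq.1 (h.uniq h2)).2
  obtain rfl : q = p := Subtype.ext ((Nat.prime_dvd_prime_iff_eq q.2 p.2).1 (by exact_mod_cast h3))
  exact ⟨c, fun i => by simpa using h.sh h1 i⟩

lemma norm1 (h1 : (φ (T 1)).k = 1) : ∃ k, ∀ᶠ p in cofinite, R φ (pt p 0) (pt p k) := by
  obtain ⟨a, ha⟩ := exists_ne (1 : A)
  choose c hc using exists_c h1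
  obtain ⟨⟨M, h2⟩, h3⟩ := (φ (dl 0 a)).good
  choose v hv using h3
  by_cases h : ∀ i, v i = 1
  · obtain ⟨p, h4, h5⟩ := (h2.and ((eventually_all_finset (Finset.Icc (-M : ℤ) M)).2
      fun i _ => hv i)).exists
    exfalso
    have h6 : (φ (dl 0 a)).f (pt p (c p + 0)) ≠ 1 := fun e => ha (by
      simpa using (hc p 0).symm.van (k_zero φ (dl_k 0 a)) e)
    obtain ⟨i, h7, h8⟩ := h4 _ h6
    exact h6 (by rw [h8, h5 i (Finset.mem_Icc.2 (abs_le.1 h7)), h])
  · obtain ⟨i, hi⟩ := not_forall.1 h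
    refine ⟨i, (hv i).mono fun p hp => ?_⟩
    have h4 := hc p (i - c p)
    rw [add_sub_cancel] at h4
    by_cases e : pt p (i - c p) = pt p 0
    · exact e ▸ h4
    · exact (hi (hp ▸ h4.van (dl_k 0 a) (by simp [e]))).elim

lemma norm2 (h1 : (φ (T 1)).k = 1) : ∃ v : G A, v.k = 0 ∧
    ∀ x, (v⁻¹ * φ (T 1) * v).f x = 1 := by
  obtain ⟨⟨M, h2⟩, -⟩ := (φ (T 1)).good
  have hp : ∀ p j, (φ (T 1) ^ (p.1 : ℤ)).f (pt p j) = 1 := fun p j => cen fun b => by
    obtain ⟨c, hc⟩ := exists_c h1 p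
    have h4 := hc (j - c)
    rw [add_sub_cancel] at h4
    obtain ⟨a, ha⟩ := h4.1 b
    have e : ∀ i, pt p (i + -p.1) = pt p i := fun i => pt_eq.2 ⟨rfl, by simp⟩
    have h3 : ee (pt p (j - c)) a * T 1 ^ (p.1 : ℤ) = T 1 ^ (p.1 : ℤ) * ee (pt p (j - c)) a := by
      rw [T_pow]
      ext z
      · simp [sh_inj, pt_eq.2 ⟨rfl, (by simp : (p.1 : ℤ) ∣ j - c - (j - c + p.1))⟩]
      · simp
    have := congrArg (fun g => (φ g).f (pt p j)) h3
    simpa only [map_mul, map_zpow, ha, mul_f, ee_f, ee_k, zpow_k, h1, mul_one, neg_zero, sh_zero,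
      sh_pt, e, if_true, add_zero] using this
  generalize φ (T 1) = u at *
  let W : Pr → ℤ → A := fun p j => (u ^ (j - M - 1)).f (pt p j)
  have W1 : ∀ p j, W p (j + 1) = u.f (pt p (j + 1)) * W p j := fun p j => by
    simp only [W]
    rw [show j + 1 - M - 1 = 1 + (j - M - 1) by ring, zpow_add, zpow_one]
    simp [h1]
  have W2 : ∀ p j, W p (j + p.1) = W p j := fun p j => by
    simp only [W]
    rw [show j + p.1 - M - 1 = p.1 + (j - M - 1) by ring, zpow_add, mul_f, hp, zpow_k, h1]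
    simp
  have W3 : ∀ p i j, pt p i = pt p j → W p i = W p j := fun p i j e => by
    obtain ⟨t, ht⟩ := (pt_eq.1 e).2
    have := Function.Periodic.int_mul (f := W p) (W2 p) t i
    rw [← this]
    congr 1
    push_cast
    linarith
  have W4 : ∀ p (j : ℤ), W p ((j : ZMod p.1).cast) = W p j := fun p j => W3 p _ _
    (congrArg (Sigma.mk p) (ZMod.intCast_zmod_cast _))
  suffices hg : Good fun x : X => W x.1 x.2.cast by
    obtain ⟨v, vk, vf⟩ : ∃ v : G A, v.k = 0 ∧ ∀ p j, v.f (pt p j) = W p j :=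
      ⟨⟨_, 0, hg⟩, rfl, W4⟩
    refine ⟨v, vk, fun x => ?_⟩
    obtain ⟨p, j, rfl⟩ := exists_pt x
    have := W1 p (j + -1)
    rw [neg_add_cancel_right] at this
    simp [h1, vk, vf, this]
  refine ⟨⟨M, (h2.and (ev_gt (2 * M + 2))).mono fun p hp j hj => ?_⟩, fun i => ?_⟩
  · have key : ∀ n : ℕ, (n : ℤ) + 2 * M + 2 ≤ p.1 → W p (M + 1 + n) = 1 := by
      intro n hn
      induction n with
      | zero => simp [W]
      | succ n ih =>
        push_cast at hn ⊢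
        rw [← add_assoc, W1, ih (by omega), mul_one]
        by_contra h
        obtain ⟨i, h3, h4⟩ := hp.1 _ h
        rw [abs_le] at h3
        have := Int.le_of_dvd (by omega) ((dvd_neg.2 (pt_eq.1 h4).2))
        omega
    have p0 : (0 : ℤ) < p.1 := by exact_mod_cast p.2.pos
    have e0 := Int.emod_nonneg (j - M - 1) p0.ne'
    have e1 := Int.emod_lt_of_pos (j - M - 1) p0
    have e2 := Int.mul_ediv_add_emod (j - M - 1) p.1
    obtain ⟨n, hn⟩ := Int.eq_ofNat_of_zero_le e0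
    rw [hn] at e1 e2
    by_cases h : (n : ℤ) + 2 * M + 2 ≤ p.1
    · refine (hj ?_).elim
      change W p ((j : ZMod p.1).cast) = 1
      rw [W4, ← key n h]
      exact W3 _ _ _ (pt_eq.2 ⟨rfl, ⟨-((j - M - 1) / p.1), by linarith⟩⟩)
    · exact ⟨M + 1 + n - p.1, abs_le.2 ⟨by omega, by omega⟩,
        pt_eq.2 ⟨rfl, ⟨-((j - M - 1) / p.1) - 1, by linarith⟩⟩⟩
  · obtain ⟨a, ha⟩ := (u ^ (i - M - 1)).good.2 i
    exact ⟨a, ha.mono fun p hp => (W4 p i).trans hp⟩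

end Pool.Agent.H.MP_48d09b_al
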