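import Pool.Agent.H.MP_48d09b_al.C

set_option autoImplicit false

namespace Pool.Agent.H.MP_48d09b_al

open Filter Classical

variable {A : Type} [Group A]

def Ag (p : Pr) (g h : G A) : Prop := g.k = h.k ∧ ∀ j, g.f (pt p j) = h.f (pt p j)

lemma Ag.refl (p : Pr) (g : G A) : Ag p g g := ⟨rfl, fun _ => rfl⟩

lemma Ag.symm {p : Pr} {g h : G A} (e : Ag p g h) : Ag p h g := ⟨e.1.symm, fun j => (e.2 j).symm⟩

lemma Ag.trans {p : Pr} {g h l : G A} (e : Ag p g h) (e' : Ag p h l) : Ag p g l :=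
  ⟨e.1.trans e'.1, fun j => (e.2 j).trans (e'.2 j)⟩

lemma Ag.mul {p : Pr} {g h g' h' : G A} (e : Ag p g h) (e' : Ag p g' h') :
    Ag p (g * g') (h * h') :=
  ⟨by simp [e.1, e'.1], fun j => by simp [e.1, e.2, e'.2]⟩

lemma Ag.inv {p : Pr} {g h : G A} (e : Ag p g h) : Ag p g⁻¹ h⁻¹ :=
  ⟨by simp [e.1], fun j => by simp [e.1, e.2]⟩

def AgA (p : Pr) (φ : MulAut (G A)) (g : G A) : Prop := ∀ h, Ag p (φ h) (g * h * g⁻¹)

lemma AgA.mul {p : Pr} {φ ψ : MulAut (G A)} {g g' : G A} (e : AgA p φ g) (e' : AgA p ψ g') :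
    AgA p (φ * ψ) (g * g') := fun h => (e (ψ h)).trans (by
  simpa [mul_assoc] using ((Ag.refl p g).mul (e' h)).mul (Ag.refl p g⁻¹))

lemma AgA.inv {p : Pr} {φ : MulAut (G A)} {g : G A} (e : AgA p φ g) : AgA p φ⁻¹ g⁻¹ := fun h => by
  simpa [mul_assoc] using (((Ag.refl p g⁻¹).mul (e (φ⁻¹ h))).mul (Ag.refl p g)).symm

def U (q : Pr) : Subgroup (MulAut (G A)) where
  carrier := {φ | ∃ g, AgA q φ g ∧ ∀ᶠ p in cofinite, AgA p φ g}
  one_mem' := ⟨1, fun h => by simpa using Ag.refl q h,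
    Eventually.of_forall fun p h => by simpa using Ag.refl p h⟩
  mul_mem' := fun ⟨g, h1, h2⟩ ⟨g', h3, h4⟩ =>
    ⟨g * g', h1.mul h3, (h2.and h4).mono fun _ hp => hp.1.mul hp.2⟩
  inv_mem' := fun ⟨g, h1, h2⟩ => ⟨g⁻¹, h1.inv, h2.mono fun _ hp => hp.inv⟩

lemma conj_U (q : Pr) (g : G A) : MulAut.conj g ∈ U q :=
  ⟨g, fun _ => Ag.refl _ _, Eventually.of_forall fun _ _ => Ag.refl _ _⟩

lemma inter [Nontrivial A] {φ : MulAut (G A)} (h : ∀ q, φ ∈ U q) : φ ∈ Inn (G A) := by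
  choose g h1 h2 using h
  obtain ⟨a, ha⟩ := exists_ne (1 : A)
  have hk : ∀ q r, (g q).k = (g r).k := fun q r => sub_eq_zero.1 (zero_of_ev
    (((h2 q).and (h2 r)).mono fun p hp => by
      have := ((hp.1 (dl 0 a)).symm.trans (hp.2 (dl 0 a))).2 (g r).k
      by_contra hc
      have h3 : pt p ((g r).k + -(g q).k) ≠ pt p 0 := fun e => hc (by
        simpa [sub_eq_add_neg] using (pt_eq.1 e).2)
      simp [h3, eq_comm (a := (1 : A)), mul_inv_eq_one, ha] at this))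
  let g0 : Pr → G A := fun p => if AgA p φ (g default) then g default else g p
  have h3 : ∀ p, AgA p φ (g0 p) := fun p => by
    simp only [g0]
    split_ifs with e
    · exact e
    · exact h1 p
  have h4 : ∀ p, (g default).k = (g0 p).k := fun p => by
    simp only [g0]
    split_ifs
    · rfl
    · exact hk _ _
  let g1 : G A := ⟨fun x => (g0 x.1).f x, (g default).k,
    good_of_ev (g default).good ((h2 default).mono fun p hp j => by simp [g0, hp])⟩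
  have h5 : ∀ p, Ag p g1 (g0 p) := fun p => ⟨h4 p, fun _ => rfl⟩
  have h6 : ∀ p h, Ag p (g1 * h * g1⁻¹) (φ h) := fun p h =>
    (((h5 p).mul (Ag.refl p h)).mul (h5 p).inv).trans (h3 p h).symm
  refine ⟨g1, MulEquiv.ext fun h => G.ext (funext fun x => ?_) (h6 default h).1⟩
  obtain ⟨p, j, rfl⟩ := exists_pt x
  exact (h6 p h).2 j

variable [IsSimpleGroup A] [hA : Fact (∃ a b : A, a * b ≠ b * a)] [Finite A]

lemma normal_form {φ : MulAut (G A)} (h1 : (φ (T 1)).k = 1) : ∃ g : G A,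
    (MulAut.conj g * φ) (T 1) = T 1 ∧ ∀ᶠ p in cofinite, ∀ j,
      R (MulAut.conj g * φ) (pt p j) (pt p j) := by
  obtain ⟨k, hk⟩ := norm1 h1
  obtain ⟨v, h2, h3⟩ := norm2 h1
  have e : (MulAut.conj (T (-k) * v⁻¹ : G A) * φ : MulAut (G A)) (T 1) = T 1 := by
    have : v⁻¹ * φ (T 1) * v = T 1 := G.ext (funext h3) (by simp [h1])
    rw [MulAut.mul_apply, MulAut.conj_apply, mul_inv_rev, inv_inv, mul_assoc (T _), mul_assoc (T _),
      ← mul_assoc (v⁻¹ * _), this]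
    ext <;> simp
  refine ⟨T (-k) * v⁻¹, e, hk.mono fun p hp j => ?_⟩
  have := (hp.conj (T (-k) * v⁻¹)).sh (by rw [e]; rfl) j
  rwa [sh_pt, sh_pt, sh_pt, zero_add, show k + (T (-k) * v⁻¹ : G A).k + j = j by simp [h2]] at this

lemma U_plus (q : Pr) : ∃ I : MulAut (G A) → (A → A) × (A → ZMod q.1 → A), ∀ φ ψ,
    (φ (T 1)).k = 1 → (ψ (T 1)).k = 1 → I φ = I ψ → φ * ψ⁻¹ ∈ U q := by
  have : ∀ φ : MulAut (G A), ∃ g : G A, (φ (T 1)).k = 1 → (MulAut.conj g * φ) (T 1) = T 1 ∧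
      ∀ᶠ p in cofinite, ∀ j, R (MulAut.conj g * φ) (pt p j) (pt p j) := fun φ => by
    by_cases h : (φ (T 1)).k = 1
    · exact (normal_form h).imp fun g hg _ => hg
    · exact ⟨1, fun e => absurd e h⟩
  choose g hg using this
  choose β hβ using fun (φ : MulAut (G A)) a => ((MulAut.conj (g φ) * φ) (dl 0 a)).good.2 0
  refine ⟨fun φ => (β φ, fun a x => ((MulAut.conj (g φ) * φ) (dl 0 a)).f ⟨q, x⟩),
    fun φ ψ h1 h2 e => ?_⟩
  obtain ⟨e1, e2⟩ := Prod.mk.inj e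
  obtain ⟨a1, a2⟩ := hg φ h1
  obtain ⟨b1, b2⟩ := hg ψ h2
  have a3 := eventually_all.2 (hβ φ)
  have b3 := eventually_all.2 (hβ ψ)
  have : φ * ψ⁻¹ = (MulAut.conj (g φ))⁻¹ * ((MulAut.conj (g φ) * φ) * (MulAut.conj (g ψ) * ψ)⁻¹) *
      MulAut.conj (g ψ) := by group
  rw [this]
  generalize MulAut.conj (g φ) * φ = φ' at *
  generalize MulAut.conj (g ψ) * ψ = ψ' at *
  refine (U q).mul_mem ((U q).mul_mem ((U q).inv_mem (conj_U q _)) ?_) (conj_U q _)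
  have key : ∀ p, (∀ a j, (φ' (dl 0 a)).f (pt p j) = (ψ' (dl 0 a)).f (pt p j)) →
      AgA p (φ' * ψ'⁻¹) 1 := fun p hp h => by
    let S : Subgroup (G A) :=
      { carrier := {h | Ag p (φ' h) (ψ' h)}
        one_mem' := by simpa using Ag.refl p 1
        mul_mem' := fun ha hb => by simpa using Ag.mul ha hb
        inv_mem' := fun ha => by simpa using Ag.inv ha }
    have : Ag p _ _ := gen S (by change Ag p _ _; rw [a1, b1]; exact Ag.refl _ _)
      (fun a => ⟨by rw [k_zero _ (dl_k 0 a), k_zero _ (dl_k 0 a)], hp a⟩) (ψ'⁻¹ h)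
    simpa using this
  refine ⟨1, key q fun a j => congrFun (congrFun e2 a) j,
    ((a2.and b2).and (a3.and b3)).mono fun p hp => key p fun a j => ?_⟩
  by_cases hj : pt p j = pt p 0
  · rw [hj, hp.2.1, hp.2.2, e1]
  · rw [(hp.1.1 j).van (dl_k 0 a) (by simp [hj]), (hp.1.2 j).van (dl_k 0 a) (by simp [hj])]

lemma U_fi (q : Pr) : (U q : Subgroup (MulAut (G A))).FiniteIndex := by
  obtain ⟨I, hI⟩ := U_plus (A := A) q
  have eps : ∀ φ : MulAut (G A), (φ (T 1)).k ≠ 1 → (φ (T 1)).k = -1 := fun φ h => by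
    have := k_aut φ (φ⁻¹ (T 1))
    rw [MulAut.apply_inv_self, T_k, mul_comm] at this
    exact (Int.eq_one_or_neg_one_of_mul_eq_one this.symm).resolve_left h
  by_cases h : ∀ φ : MulAut (G A), (φ (T 1)).k = 1
  · exact fi_of_inv _ I fun a b => hI a b (h a) (h b)
  obtain ⟨φ0, h0⟩ := not_forall.1 h
  refine fi_of_inv _ (fun φ => ((φ (T 1)).k = 1, I φ, I (φ * φ0))) fun a b e => ?_
  simp only [Prod.mk.injEq, eq_iff_iff] at e
  by_cases ha : (a (T 1)).k = 1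
  · exact hI a b ha (e.1.1 ha) e.2.1
  · have := hI (a * φ0) (b * φ0) (by rw [MulAut.mul_apply, k_aut, eps a ha, eps φ0 h0]; rfl)
      (by rw [MulAut.mul_apply, k_aut, eps b fun h => ha (e.1.2 h), eps φ0 h0]; rfl) e.2.2
    simpa [mul_assoc] using this

theorem rf_out : RF (MulAut (G A) ⧸ Inn (G A)) := by
  refine rf_of_sub fun x hx => ?_
  obtain ⟨φ, rfl⟩ := QuotientGroup.mk_surjective x
  obtain ⟨q, hq⟩ := not_forall.1 fun h => hx ((QuotientGroup.eq_one_iff φ).2 (inter h))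
  refine ⟨(U q).map (QuotientGroup.mk' _), ⟨fun e => (U_fi (A := A) q).index_ne_zero
    (zero_dvd_iff.1 (e ▸ Subgroup.index_map_dvd _ (QuotientGroup.mk'_surjective _)))⟩, ?_⟩
  rintro ⟨ψ, h1, h2⟩
  obtain ⟨g, hg⟩ := QuotientGroup.eq.1 h2
  refine hq ?_
  simpa [hg] using (U q).mul_mem h1 (conj_U q g)

end Pool.Agent.H.MP_48d09b_al
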