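import Mathlib

set_option autoImplicit false

namespace Pool.Agent.H.MP_48d09b_al

/-- residually finite -/
def RF (G : Type) [Group G] : Prop :=
  ∀ g : G, g ≠ 1 → ∃ (F : Type) (_ : Group F) (_ : Finite F) (φ : G →* F), φ g ≠ 1

/-- inner automorphisms -/
def Inn (G : Type) [Group G] : Subgroup (MulAut G) := (MulAut.conj : G →* MulAut G).range

instance Inn_normal (G : Type) [Group G] : (Inn G).Normal :=
  ⟨by rintro _ ⟨g, rfl⟩ φ; exact ⟨φ g, by ext x; simp⟩⟩

/-- inner automorphism separable -/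
def IAS (G : Type) [Group G] : Prop :=
  ∀ φ : MulAut G, φ ∉ Inn G → ∃ K : Subgroup G, K.Characteristic ∧ K.FiniteIndex ∧
    ¬ ∃ g : G, ∀ h : G, (φ h : G ⧸ K) = (g * h * g⁻¹ : G)

end Pool.Agent.H.MP_48d09b_al
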